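import Mathlib
import Pool.Agent.HighD3.FinalP

/-!
# MP_2be380_lc: homogeneous `Δ⁰₂` sets whose jump does not compute `0''` with `0'`-bounded use

Every `Δ⁰₂` set `A` has an infinite `Δ⁰₂` subset `B` of `A` or of its complement such that `0''` is
not of the form `n ↦ lim_s F(n, B' ↾ g(n), s)` with limit computable (that is, `0'`-computable) `g`
and computable `F`. The limit need not exist if `B' ↾ g(n)` is replaced by another string, so
`lim_s F` is an arbitrary partial `0'`-computable functional with `0'`-bounded use of `B'`.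
-/

set_option autoImplicit false

namespace Pool.Agent.Results.MP_2be380_lc.BoundedUse

open Filter

theorem result (A : ℕ → Bool)
    (hA : ∃ a : ℕ → ℕ → Bool, Computable₂ a ∧ ∀ n, ∀ᶠ s in atTop, a n s = A n) :
    ∃ B : ℕ → Bool, (∀ m, ∃ n, m < n ∧ B n = true) ∧
      ((∀ n, B n = true → A n = true) ∨ (∀ n, B n = true → A n = false)) ∧
      (∃ b : ℕ → ℕ → Bool, Computable₂ b ∧ ∀ n, ∀ᶠ s in atTop, b n s = B n) ∧
      ¬ ∃ (g : ℕ → ℕ) (F : ℕ × List Bool → ℕ → Bool),
        (∃ g' : ℕ → ℕ → ℕ, Computable₂ g' ∧ ∀ n, ∀ᶠ s in atTop, g' n s = g n) ∧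
        Computable₂ F ∧
        ∀ n, ∀ᶠ s in atTop, F (n, JumpDeg.pre (JumpDeg.jump B) (g n)) s =
          JumpDeg.jump (JumpDeg.jump (fun _ => false)) n := by
  obtain ⟨B, h1, h2, h3, h4⟩ := HighD3.main_p (A := A) hA
  exact ⟨B, h2, h3, h1, h4⟩

end Pool.Agent.Results.MP_2be380_lc.BoundedUse
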