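import Mathlib
import Pool.Agent.HighD2.Main

/-!
# MP_2be380_lc: highness of the infinite `Δ⁰₂` subsets cannot be witnessed by a `0''`-computable
selection of functionals, not even on one side only

Suppose that `A` is a `Δ⁰₂` set and that some `∅''`-computable procedure (given as the limit in `k`
of a limit computable function `g c k`) finds, for every `Δ⁰₂`-index `c` of an infinite set `K` on
one given side of `A`, a functional `d` such that `Φ_d(K)` is a total function dominating all
computable functions. Then the *other* side of `A` has an infinite `Δ⁰₂` subset that is not high.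
-/

set_option autoImplicit false

namespace Pool.Agent.Results.MP_2be380_lc.SelectionOfWitnesses

open Filter
open Nat.Partrec (Code)
open HighD2

theorem result (A : ℕ → Bool)
    (hA : ∃ a : ℕ → ℕ → Bool, Computable₂ a ∧ ∀ n, ∀ᶠ s in atTop, a n s = A n)
    (side : Bool) (g : Code → ℕ → Code)
    (hg : ∃ g' : Code × ℕ → ℕ → Code, Computable₂ g' ∧
      ∀ c k, ∀ᶠ s in atTop, g' (c, k) s = g c k)
    (hsel : ∀ (c : Code) (K : ℕ → Bool), LimIndex c K →
      (∀ m, ∃ n, m < n ∧ K n = true) → (∀ n, K n = true → A n = side) →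
      ∃ d, (∀ᶠ k in atTop, g c k = d) ∧
        ∃ h : ℕ → ℕ, Computes d K h ∧
          ∀ f : ℕ → ℕ, Computable f → ∀ᶠ n in atTop, f n ≤ h n) :
    ∃ B : ℕ → Bool, (∀ m, ∃ n, m < n ∧ B n = true) ∧ (∀ n, B n = true → A n = !side) ∧
      (∃ b : ℕ → ℕ → Bool, Computable₂ b ∧ ∀ n, ∀ᶠ s in atTop, b n s = B n) ∧
      ¬ ∃ h : ℕ → ℕ,
        RecursiveIn {fun n => Part.some (B n).toNat} (fun n => Part.some (h n)) ∧
        ∀ f : ℕ → ℕ, Computable f → ∀ᶠ n in atTop, f n ≤ h n := by
  -- the set with `side` replaced by `false`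
  obtain ⟨a, ha1, ha2⟩ := hA
  obtain ⟨g', hg1, hg2⟩ := hg
  have hA' : LimF (fun n => xor (A n) side) := by
    refine ⟨fun n s => xor (a n s) side, ?_, fun n => ?_⟩
    · have h1 : Computable (fun b : Bool => xor b side) := (Primrec.dom_finite _).to_comp
      exact (h1.comp ha1).to₂
    · filter_upwards [ha2 n] with s hs
      rw [hs]
  have hg' : LimF (fun q : Code × ℕ => g q.1 q.2) := ⟨g', hg1, fun q => hg2 q.1 q.2⟩
  obtain ⟨H, h1, h2, h3, h4⟩ := main hA' hg' (by
    intro c K hc hK1 hK2
    refine hsel c K hc hK1 fun n hn => ?_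
    have := hK2 n hn
    revert this
    cases A n <;> cases side <;> simp)
  refine ⟨H, h1, fun n hn => ?_, h3, ?_⟩
  · have := h2 n hn
    revert this
    cases A n <;> cases side <;> simp
  · rintro ⟨h, h5, h6⟩
    refine h4 ⟨h, ?_, h6⟩
    have h7 : (fun n => Part.some (H n).toNat : ℕ →. ℕ) = JumpDeg.chi H := by
      funext n
      unfold JumpDeg.chi
      cases H n <;> rfl
    rw [h7] at h5
    have h8 : Nat.RecursiveIn {JumpDeg.chi H} (fun n => Part.some (h n) : ℕ →. ℕ) :=
      RecursiveIn.iff_nat.1 h5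
    refine (JumpDeg.sig_of_recursiveIn h8).congr ?_
    rintro _ _ ⟨n, v⟩
    simp only [Part.mem_some_iff]
    exact eq_comm

end Pool.Agent.Results.MP_2be380_lc.SelectionOfWitnesses
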